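import Pool.Agent.helper73.SHL.Spec

/-!
# Row BND: the bound for the Hirsch length of a solvable group over a division algebra (MP_a2a22c_al)
-/

set_option autoImplicit false

namespace Pool.Agent.SHL

open Matrix Module Pool.Agent.PR

private lemma BND_arith (a b c d e k' N : ℕ) (hsum : a + b + c = N) (he : 0 < e)
    (hc : c + 1 ≤ d * e) (ha : a ≤ d * d * (e * k'))
    (hb : 2 * b + d * d * k' + 2 * k' ≤ d * d * k' * k' + 2 * k' * d) :
    2 * N + d * d * (k' + e) + 2 * (k' + e) ≤
      d * d * (k' + e) * (k' + e) + 2 * (k' + e) * d := by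
  obtain ⟨f, rfl⟩ : ∃ f, e = f + 1 := ⟨e - 1, by omega⟩
  have hd : 1 ≤ d := by
    rcases Nat.eq_zero_or_pos d with h | h
    · rw [h] at hc
      omega
    · exact h
  have h1 : 2 * f ≤ f * (d * d * (f + 1)) := by
    rcases Nat.eq_zero_or_pos f with h | h
    · simp [h]
    · have h2 : 2 ≤ d * d * (f + 1) := by nlinarith
      nlinarith
  subst hsum
  nlinarith

theorem BND (hHA : HA_stmt) (hSTP : STP_stmt) (hHOM : HOM_stmt) : BND_stmt := by
  intro D _ _ _ d hcen hd
  have key : ∀ k : ℕ, ∀ (V : Type) [AddCommGroup V] [Module D V] [Module ℚ V]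
      [IsScalarTower ℚ D V] [Module.Finite D V] (Q : Type) [Group Q], Group.IsSolvable Q →
      ∀ ρ : Q →* Module.End D V, Function.Injective ρ → (∀ g, IsIntegral ℤ (ρ g)) → ∀ N : ℕ,
      Hi N (⊤ : Subgroup Q) → finrank D V = k →
      2 * N + d * d * k + 2 * k ≤ d * d * k * k + 2 * k * d := by
    intro k
    induction k using Nat.strong_induction_on with
    | _ k ih =>
    intro V _ _ _ _ _ Q _ hsol ρ hinj hint N hN hk
    rcases Nat.eq_zero_or_pos k with h0 | h0
    · have hV : Subsingleton V := finrank_zero_iff.1 (hk.trans h0)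
      have hE : Subsingleton (Module.End D V) :=
        ⟨fun x y => LinearMap.ext fun v => Subsingleton.elim _ _⟩
      have hQ : ∀ x : Q, x = 1 := fun x => hinj (Subsingleton.elim _ _)
      have hN0 : N = 0 := (hHA Q).2.2.2.1 N ⊤ (fun x _ => ⟨1, one_pos, by
        rw [pow_one]
        exact hQ x⟩) hN
      subst hN0
      subst h0
      simp
    · have hV : Nontrivial V := finrank_pos_iff.1 (by rw [hk]; exact h0)
      obtain ⟨G₁, L, a, b, c, hfi, hL, hGL, hsum, hc, ⟨Q', iQ, ρ', hsol', hinj', hint', hb⟩, ha⟩ :=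
        hSTP D d hcen hd V Q hsol ρ hinj hint N hN
      have h1 := hHOM D V L {x : Module.End D V | ∃ g ∈ G₁, (∀ w ∈ L, ρ g w = w) ∧
        (∀ v, ρ g v - v ∈ L) ∧ x = ρ g - 1} (by
          rintro x ⟨g, -, hg1, hg2, rfl⟩
          refine ⟨fun w hw => ?_, fun v => ?_⟩
          · rw [LinearMap.sub_apply, hg1 w hw, Module.End.one_apply, sub_self]
          · rw [LinearMap.sub_apply, Module.End.one_apply]
            exact hg2 v)
      have h2 : finrank D (V ⧸ L) + finrank D L = finrank D V :=
        Submodule.finrank_quotient_add_finrank L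
      have he : 0 < finrank D L := by
        rw [Nat.pos_iff_ne_zero]
        intro h
        exact hL (Submodule.finrank_eq_zero.1 h)
      have hlt : finrank D (V ⧸ L) < k := by omega
      have h3 := ih _ hlt (V ⧸ L) Q' hsol' ρ' hinj' hint' b hb rfl
      have h4 : k = finrank D (V ⧸ L) + finrank D L := by rw [h2, hk]
      rw [h4]
      refine BND_arith a b c d (finrank D L) (finrank D (V ⧸ L)) N hsum he hc ?_ h3
      rw [hd] at h1
      exact ha.trans h1
  intro V _ _ _ _ _ Q _ hsol ρ hinj hint N hN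
  exact key _ V Q hsol ρ hinj hint N hN rfl

end Pool.Agent.SHL
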