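import Pool.Agent.helper73.SHL.Spec

/-!
# Row NOC: no division algebra of degree three (MP_a2a22c_al)
-/

set_option autoImplicit false

namespace Pool.Agent.SHL

open Matrix Module Pool.Agent.PR

/-! ### The end: Minkowski -/

private lemma NOC_nor_mul {D : Type} [DivisionRing D] [Algebra ℚ D] (y z : D) :
    nor (y * z) = nor y * nor z := by
  unfold nor
  rw [← LinearMap.det_comp]
  refine congrArg LinearMap.det ?_
  ext w
  simp [mul_assoc]

private lemma NOC_nor_one {D : Type} [DivisionRing D] [Algebra ℚ D] : nor (1 : D) = 1 := by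
  unfold nor
  have h : LinearMap.mulLeft ℚ (1 : D) = LinearMap.id := by
    ext w
    simp
  rw [h, LinearMap.det_id]

private lemma NOC_nor_ne {D : Type} [DivisionRing D] [Algebra ℚ D] (y : D) (hy : y ≠ 0) :
    nor y ≠ 0 := by
  intro h
  have h1 := NOC_nor_mul y y⁻¹
  rw [mul_inv_cancel₀ hy, NOC_nor_one, h, zero_mul] at h1
  exact one_ne_zero h1

private lemma NOC_nor_int {D : Type} [DivisionRing D] [Algebra ℚ D] [FiniteDimensional ℚ D]
    (h9 : finrank ℚ D = 9) (x : Fin 9 → D) (hli : LinearIndependent ℚ x)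
    (hmul : ∀ i j, ∃ c : Fin 9 → ℤ, x i * x j = ∑ l, c l • x l) (c : Fin 9 → ℤ) :
    ∃ N : ℤ, nor (∑ i, c i • x i) = N := by
  choose cc hcc using hmul
  let b : Basis (Fin 9) ℚ D := basisOfLinearIndependentOfCardEqFinrank hli (by rw [h9]; rfl)
  have hb : ∀ i, b i = x i := fun i => by
    simp [b]
  let A : Matrix (Fin 9) (Fin 9) ℤ := Matrix.of fun l j => ∑ i, c i * cc i j l
  have hy : ∀ j, (∑ i, c i • x i) * x j = ∑ l, (A l j : ℚ) • b l := by
    intro j
    rw [Finset.sum_mul]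
    have h1 : ∀ i, (c i • x i) * x j = ∑ l, ((c i * cc i j l : ℤ) : ℚ) • b l := by
      intro i
      rw [smul_mul_assoc, hcc i j, Finset.smul_sum]
      refine Finset.sum_congr rfl fun l _ => ?_
      rw [hb, Int.cast_smul_eq_zsmul, smul_smul]
    rw [Finset.sum_congr rfl fun i _ => h1 i, Finset.sum_comm]
    refine Finset.sum_congr rfl fun l _ => ?_
    rw [← Finset.sum_smul]
    congr 1
    simp only [A, Matrix.of_apply]
    push_cast
    rfl
  refine ⟨A.det, ?_⟩
  unfold nor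
  rw [← LinearMap.det_toMatrix b]
  have h2 : LinearMap.toMatrix b b (LinearMap.mulLeft ℚ (∑ i, c i • x i)) =
      A.map (Int.castRingHom ℚ) := by
    ext l j
    rw [LinearMap.toMatrix_apply, LinearMap.mulLeft_apply, hb, hy j, map_sum, Finset.sum_apply']
    simp only [map_smul, Basis.repr_self, Finsupp.smul_single, smul_eq_mul, mul_one,
      Matrix.map_apply]
    rw [Finset.sum_eq_single l]
    · simp
    · intro m _ hm
      rw [Finsupp.single_apply, if_neg hm]
    · intro h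
      exact absurd (Finset.mem_univ _) h
  rw [h2]
  exact ((Int.castRingHom ℚ).map_det A).symm

private lemma NOC_end (hTRC : TRC_stmt) (hRLT : RLT_stmt) (hMIN : MIN_stmt) (D : Type)
    [DivisionRing D] [Algebra ℚ D] [FiniteDimensional ℚ D] (hcen : Algebra.IsCentral ℚ D)
    (h9 : finrank ℚ D = 9) (x : Fin 9 → D) (T : Matrix (Fin 9) (Fin 9) ℤ)
    (hli : LinearIndependent ℚ x) (hmul : ∀ i j, ∃ c : Fin 9 → ℤ, x i * x j = ∑ l, c l • x l)
    (htr : ∀ i j, tra (x i * x j) = 3 * T i j) (hdet : T.det ^ 2 = 1) : False := by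
  obtain ⟨φ⟩ := hRLT D hcen h9
  have hX : (Matrix.of fun i j => (φ (x i) * φ (x j)).trace).det ^ 2 = 1 := by
    have h1 : (Matrix.of fun i j => (φ (x i) * φ (x j)).trace) = T.map (Int.castRingHom ℝ) := by
      ext i j
      have h2 := (hTRC D 3 hcen h9 ℝ φ (x i * x j)).1
      rw [map_mul, htr i j] at h2
      push_cast at h2
      rw [Matrix.of_apply, Matrix.map_apply]
      have h3 : (Int.castRingHom ℝ) (T i j) = (T i j : ℝ) := rfl
      rw [h3]
      linarith
    rw [h1]
    have h2 : (T.map (Int.castRingHom ℝ)).det = ((T.det : ℤ) : ℝ) :=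
      ((Int.castRingHom ℝ).map_det T).symm
    rw [h2]
    exact_mod_cast hdet
  obtain ⟨c, hc0, hlt⟩ := hMIN (fun i => φ (x i)) hX
  have hφ : φ (∑ i, c i • x i) = ∑ i, c i • φ (x i) := by
    rw [map_sum]
    exact Finset.sum_congr rfl fun i _ => map_zsmul φ _ _
  rw [← hφ] at hlt
  obtain ⟨N, hN⟩ := NOC_nor_int h9 x hli hmul c
  have hy : (∑ i, c i • x i) ≠ 0 := by
    intro h
    apply hc0
    have h1 := Fintype.linearIndependent_iff.1 hli (fun i => (c i : ℚ)) (by
      rw [← h]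
      exact Finset.sum_congr rfl fun i _ => Int.cast_smul_eq_zsmul ℚ _ _)
    funext i
    have := h1 i
    exact_mod_cast this
  have hN0 : N ≠ 0 := by
    intro h
    apply NOC_nor_ne _ hy
    rw [hN, h]
    rfl
  have h3 := (hTRC D 3 hcen h9 ℝ φ (∑ i, c i • x i)).2
  rw [hN] at h3
  have h4 : |(φ (∑ i, c i • x i)).det| ^ 3 < 1 := by
    have h0 := abs_nonneg (φ (∑ i, c i • x i)).det
    exact pow_lt_one₀ h0 hlt (by norm_num)
  rw [← abs_pow, h3] at h4
  have h5 : |(N : ℝ)| < 1 := by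
    have : (((N : ℚ)) : ℝ) = (N : ℝ) := by push_cast; rfl
    rwa [this] at h4
  have h6 : |N| < 1 := by exact_mod_cast h5
  exact hN0 (Int.abs_lt_one_iff.1 h6)

/-! ### Integral matrices have integral trace -/

private lemma NOC_root_int {K : Type} [Field K] {m : ℕ} (M : Matrix (Fin m) (Fin m) K)
    (h : IsIntegral ℤ M) (μ : K) (hμ : M.charpoly.IsRoot μ) : IsIntegral ℤ μ := by
  obtain ⟨p, hp, hpM⟩ := h
  have h1 : (LinearMap.toMatrix (Pi.basisFun K (Fin m)) (Pi.basisFun K (Fin m))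
      (Matrix.toLin' M)) = M := by
    rw [LinearMap.toMatrix_eq_toMatrix', LinearMap.toMatrix'_toLin']
  have h2 : (Matrix.toLin' M : Module.End K (Fin m → K)).charpoly.IsRoot μ := by
    have := LinearMap.charpoly_toMatrix (Matrix.toLin' M : Module.End K (Fin m → K))
      (Pi.basisFun K (Fin m))
    rw [h1] at this
    rw [← this]
    exact hμ
  have h3 := (Module.End.hasEigenvalue_iff_isRoot_charpoly
    (Matrix.toLin' M : Module.End K (Fin m → K)) μ).2 h2
  obtain ⟨v, hv⟩ := h3.exists_hasEigenvector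
  have h4 : Polynomial.aeval M p = 0 := hpM
  have h5 : Polynomial.aeval (Matrix.toLin' M : Module.End K (Fin m → K))
      (p.map (algebraMap ℤ K)) = 0 := by
    have h6 := Polynomial.aeval_algHom_apply
      ((Matrix.toLinAlgEquiv' : Matrix (Fin m) (Fin m) K ≃ₐ[K] _).toAlgHom) M
      (p.map (algebraMap ℤ K))
    have h7 : Polynomial.aeval M (p.map (algebraMap ℤ K)) = 0 := by
      rw [Polynomial.aeval_map_algebraMap]
      exact h4
    rw [h7, map_zero] at h6
    exact h6
  have h8 := Module.End.aeval_apply_of_hasEigenvector (p := p.map (algebraMap ℤ K)) hv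
  rw [h5, LinearMap.zero_apply] at h8
  refine ⟨p, hp, ?_⟩
  have h9 : (p.map (algebraMap ℤ K)).eval μ = 0 := by
    rcases smul_eq_zero.1 h8.symm with h | h
    · exact h
    · exact absurd h hv.2
  rwa [Polynomial.eval_map] at h9

private lemma NOC_tr_int {F : Type} [Field F] {m : ℕ} (M : Matrix (Fin m) (Fin m) F)
    (h : IsIntegral ℤ M) : IsIntegral ℤ M.trace := by
  let K := AlgebraicClosure F
  have h1 : IsIntegral ℤ (M.map (algebraMap F K)) :=
    h.map (((algebraMap F K).mapMatrix (m := Fin m)).toIntAlgHom)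
  have h2 : IsIntegral ℤ (M.map (algebraMap F K)).trace := by
    rw [Matrix.trace_eq_sum_roots_charpoly]
    refine IsIntegral.multiset_sum fun μ hμ => ?_
    exact NOC_root_int _ h1 μ (Polynomial.isRoot_of_mem_roots hμ)
  have h3 : (M.map (algebraMap F K)).trace = algebraMap F K M.trace := by
    simp only [Matrix.trace, Matrix.diag, Matrix.map_apply, map_sum]
  rw [h3] at h2
  exact (isIntegral_algebraMap_iff (algebraMap F K).injective).1 h2


/-! ### The main argument -/

private lemma NOC_al_mul {n : ℕ} {Λ : Type} [Group Λ] (f : Fam n Λ) (p : Nat.Primes) (l m : Λ) :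
    al f p (l * m) = al f p l * al f p m := by
  apply Subtype.ext
  show qM (f p (l * m)) = qM (f p l) * qM (f p m)
  rw [map_mul]
  unfold qM
  rw [Units.val_mul, Matrix.map_mul]

private lemma NOC_al_one {n : ℕ} {Λ : Type} [Group Λ] (f : Fam n Λ) (p : Nat.Primes) :
    al f p 1 = 1 := by
  apply Subtype.ext
  show qM (f p 1) = 1
  rw [map_one]
  unfold qM
  rw [Units.val_one, Matrix.map_one _ (map_zero _) (map_one _)]

theorem NOC (hCSA : CSA_stmt) (hCHM : CHM_stmt) (hBLK : BLK_stmt) (hORA : ORA_stmt)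
    (hORD : ORD_stmt) (hTRC : TRC_stmt) (hRLT : RLT_stmt) (hMIN : MIN_stmt) : NOC_stmt := by
  intro n hn Λ _ hFG hQ f hf p k D _ _ _ hcen h9 hnk
  subst hnk
  rintro ⟨e⟩
  have hk : 0 < k := by omega
  obtain ⟨hFD, hrank, -, -, -, hspan⟩ := hCSA (3 * k) hn Λ hFG hQ f hf p
  have hCH := hCHM (3 * k) hn Λ hFG hQ f hf p
  choose s ψ0 h1 h2 h3 using hCH
  have hτ : ∀ x : AL f p, ∃ t : ℚ, ∀ q : Nat.Primes, (ψ0 q x).trace = (t : ℚ_[(q : ℕ)]) := by
    intro x
    obtain ⟨t, ht, _⟩ := h2 p x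
    refine ⟨t, fun q => ?_⟩
    obtain ⟨t', ht', htq⟩ := h2 q x
    have h4 : t' = t := by
      have h5 : ((t' : ℚ) : ℚ_[(p : ℕ)]) = (t : ℚ_[(p : ℕ)]) := by rw [← ht', ht]
      exact_mod_cast h5
    rw [htq, h4]
  choose τ0 hτ0 using hτ
  let ψ : (q : Nat.Primes) → Matrix (Fin k) (Fin k) D →ₐ[ℚ]
      Matrix (Fin (3 * k)) (Fin (3 * k)) ℚ_[(q : ℕ)] :=
    fun q => (ψ0 q).comp (e.symm : Matrix (Fin k) (Fin k) D →ₐ[ℚ] AL f p)
  let τ : Matrix (Fin k) (Fin k) D → ℚ := fun x => τ0 (e.symm x)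
  have hψτ : ∀ (q : Nat.Primes) (x : Matrix (Fin k) (Fin k) D),
      (ψ q x).trace = (τ x : ℚ_[(q : ℕ)]) := fun q x => hτ0 (e.symm x) q
  let τL : Matrix (Fin k) (Fin k) D →ₗ[ℚ] ℚ :=
    { toFun := τ
      map_add' := by
        intro x y
        have h := hψτ p (x + y)
        rw [map_add, Matrix.trace_add, hψτ p x, hψτ p y] at h
        exact_mod_cast h.symm
      map_smul' := by
        intro c x
        have h := hψτ p (c • x)
        rw [map_smul, Matrix.trace_smul, hψτ p x, Algebra.smul_def] at h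
        simp only [RingHom.id_apply, smul_eq_mul]
        have h' : (((c * τ x : ℚ)) : ℚ_[(p : ℕ)]) = (τ (c • x) : ℚ_[(p : ℕ)]) := by
          rw [← h]
          push_cast
          rfl
        exact_mod_cast h'.symm }
  let σ : Λ →* Matrix (Fin k) (Fin k) D :=
    { toFun := fun l => e (al f p l)
      map_one' := by rw [NOC_al_one, map_one]
      map_mul' := fun a b => by rw [NOC_al_mul, map_mul] }
  have hσψ : ∀ (q : Nat.Primes) (l : Λ), ψ q (σ l) = qM (s q l) := by
    intro q l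
    show ψ0 q (e.symm (e (al f p l))) = _
    rw [AlgEquiv.symm_apply_apply]
    exact h1 q l
  have hspan' : Submodule.span ℚ (Set.range σ) = ⊤ := by
    rw [eq_top_iff]
    intro y _
    have hx := hspan (e.symm y) (e.symm y).2
    have hA : e.symm y ∈ Submodule.span ℚ (Set.range (al f p)) := by
      have hm : (Submodule.span ℚ (Set.range (al f p))).map (AL f p).val.toLinearMap =
          Submodule.span ℚ (Set.range fun l => qM (f p l)) := by
        rw [Submodule.map_span, ← Set.range_comp]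
        rfl
      rw [← hm] at hx
      obtain ⟨x', hx', he⟩ := hx
      have h4 : x' = e.symm y := Subtype.ext he
      rwa [← h4]
    have h5 : y ∈ (Submodule.span ℚ (Set.range (al f p))).map
        (e.toLinearEquiv : AL f p →ₗ[ℚ] Matrix (Fin k) (Fin k) D) :=
      ⟨e.symm y, hA, e.apply_symm_apply y⟩
    rw [Submodule.map_span, ← Set.range_comp] at h5
    exact h5
  have hrankR : finrank ℚ (Matrix (Fin k) (Fin k) D) = (3 * k) * (3 * k) := by
    rw [← hrank]
    exact e.toLinearEquiv.finrank_eq.symm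
  obtain ⟨ho1, ho2, ho3, ho4⟩ := hORA (3 * k) (by omega) Λ (Matrix (Fin k) (Fin k) D) σ ψ s τ
    hrankR hspan' hσψ hψτ h3
  obtain ⟨φ, hφ⟩ := hBLK ℚ_[(p : ℕ)] D 3 k hk (ψ p : Matrix (Fin k) (Fin k) D →+* _)
  have hφτ : ∀ x : D, (φ x).trace = (τ (Matrix.single ⟨0, hk⟩ ⟨0, hk⟩ x) : ℚ_[(p : ℕ)]) := by
    intro x
    rw [hφ x]
    exact hψτ p _
  have hspanO : Submodule.span ℚ (OO ψ : Set (Matrix (Fin k) (Fin k) D)) = ⊤ := by
    rw [eq_top_iff, ← hspan']
    refine Submodule.span_mono ?_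
    rintro _ ⟨l, rfl⟩
    exact ho1 l
  have htra : ∀ x : D, ((3 : ℕ) : ℚ) * τL (Matrix.single ⟨0, hk⟩ ⟨0, hk⟩ x) = tra x := by
    intro x
    have h4 := (hTRC D 3 hcen h9 ℚ_[(p : ℕ)] φ x).1
    rw [hφτ x] at h4
    exact_mod_cast h4
  have hint : ∀ x : D, IsIntegral ℤ x →
      ∃ z : ℤ, τL (Matrix.single ⟨0, hk⟩ ⟨0, hk⟩ x) = z := by
    intro x hx
    have h4 : IsIntegral ℤ (φ x) := hx.map φ.toIntAlgHom
    have h5 := NOC_tr_int (φ x) h4
    rw [hφτ x] at h5
    have h6 : IsIntegral ℤ (τ (Matrix.single ⟨0, hk⟩ ⟨0, hk⟩ x)) := by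
      refine (isIntegral_algebraMap_iff (algebraMap ℚ ℚ_[(p : ℕ)]).injective).1 ?_
      exact h5
    obtain ⟨z, hz⟩ := IsIntegrallyClosed.isIntegral_iff.1 h6
    exact ⟨z, hz.symm⟩
  obtain ⟨x, T, hx1, hx2, hx3, hx4⟩ := hORD k 3 hk D τL (OO ψ) h9 (by norm_num)
    (by
      intro x y
      have h4 := hψτ p (x * y)
      rw [map_mul, Matrix.trace_mul_comm, ← map_mul, hψτ p] at h4
      show τ (x * y) = τ (y * x)
      exact_mod_cast h4.symm)
    ho4 hspanO ho3 htra hint
  exact NOC_end hTRC hRLT hMIN D hcen h9 x T hx1 hx2 (fun i j => by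
    have := hx3 i j
    push_cast at this
    exact this) hx4

end Pool.Agent.SHL
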